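import Pool.Agent.H12.KP.Targets4

/-!
# Project KEW, block (i): row NAK, Nakayama for the graded pieces
-/

set_option autoImplicit false

namespace Pool.Agent.H34.KP

open Pool.Agent.H12.KP

universe u v

section

variable {A : Type u} {D : Type v} [CommRing A] [CommRing D] [Algebra A D]
  (𝒟 : ℕ → Submodule A D) [GradedAlgebra 𝒟]

/-- The components lie in the powers of the part of degree one. -/
lemma comp_mem_pow (h : Algebra.adjoin A (𝒟 1 : Set D) = ⊤) (z : D) (n : ℕ) :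
    (DirectSum.decompose 𝒟 z n : D) ∈ (𝒟 1) ^ n := by
  have hz : z ∈ Algebra.adjoin A (𝒟 1 : Set D) := by rw [h]; trivial
  induction hz using Algebra.adjoin_induction generalizing n with
  | mem x hx =>
    by_cases hn : n = 1
    · subst hn
      rw [DirectSum.decompose_of_mem_same 𝒟 hx, pow_one]
      exact hx
    · rw [DirectSum.decompose_of_mem_ne 𝒟 hx (Ne.symm hn)]
      exact zero_mem _
  | algebraMap r =>
    have h0 : algebraMap A D r ∈ 𝒟 0 := SetLike.algebraMap_mem_graded 𝒟 r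
    by_cases hn : n = 0
    · subst hn
      rw [DirectSum.decompose_of_mem_same 𝒟 h0, pow_zero]
      exact Submodule.algebraMap_mem r
    · rw [DirectSum.decompose_of_mem_ne 𝒟 h0 (Ne.symm hn)]
      exact zero_mem _
  | add x y _ _ hx hy =>
    rw [DirectSum.decompose_add]
    exact add_mem (hx n) (hy n)
  | mul x y _ _ hx hy =>
    rw [DirectSum.decompose_mul, DirectSum.coe_mul_apply_eq_sum_antidiagonal]
    refine sum_mem fun ij hij => ?_
    have hij' : ij.1 + ij.2 = n := by simpa using hij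
    rw [← hij', pow_add]
    exact Submodule.mul_mem_mul (hx ij.1) (hy ij.2)

lemma mem_pow_of_mem (h : Algebra.adjoin A (𝒟 1 : Set D) = ⊤) {z : D} {n : ℕ} (hz : z ∈ 𝒟 n) :
    z ∈ (𝒟 1) ^ n := by
  have h1 := comp_mem_pow 𝒟 h z n
  rwa [DirectSum.decompose_of_mem_same 𝒟 hz] at h1

lemma pow_le_graded (n : ℕ) : (𝒟 1) ^ n ≤ 𝒟 n := by
  induction n with
  | zero =>
    rw [pow_zero]
    rintro _ ⟨r, rfl⟩
    have h0 : algebraMap A D r ∈ 𝒟 0 := SetLike.algebraMap_mem_graded 𝒟 r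
    simpa [Algebra.smul_def] using h0
  | succ n ih =>
    rw [pow_succ, Submodule.mul_le]
    intro x hx y hy
    exact SetLike.mul_mem_graded (ih hx) hy

lemma graded_fg (h : Algebra.adjoin A (𝒟 1 : Set D) = ⊤) (hfg : (𝒟 1).FG) (n : ℕ) :
    (𝒟 n).FG := by
  have h1 : 𝒟 n = (𝒟 1) ^ n :=
    le_antisymm (fun z hz => mem_pow_of_mem 𝒟 h hz) (pow_le_graded 𝒟 n)
  rw [h1]
  exact hfg.pow n

omit [GradedAlgebra 𝒟] in
lemma pow_le_ideal (n : ℕ) {z : D} (hz : z ∈ (𝒟 1) ^ n) :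
    z ∈ (Ideal.span (𝒟 1 : Set D)) ^ n := by
  induction n generalizing z with
  | zero =>
    rw [pow_zero, Ideal.one_eq_top]
    trivial
  | succ n ih =>
    rw [pow_succ] at hz ⊢
    induction hz using Submodule.mul_induction_on' with
    | mem_mul_mem x hx y hy => exact Ideal.mul_mem_mul (ih hx) (Ideal.subset_span hy)
    | add x _ y _ hx hy => exact add_mem hx hy

omit [GradedAlgebra 𝒟] in
lemma span_fg (hfg : (𝒟 1).FG) : (Ideal.span (𝒟 1 : Set D)).FG := by
  obtain ⟨S, hS⟩ := hfg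
  refine ⟨S, le_antisymm ?_ ?_⟩
  · rw [← hS]
    exact Ideal.span_mono Submodule.subset_span
  · rw [Ideal.span_le]
    intro x hx
    have hx' : x ∈ Submodule.span A (S : Set D) := by
      rw [hS]
      exact hx
    exact (Submodule.span_subset_span A D (S : Set D)) hx'

end

theorem pf_NAK : S_NAK.{u, v} := by
  intro A D _ _ _ _ _ 𝒟 _ π hπ hfg hadj Δ hΔ l0 hl0 l1 hl1 hno
  have h0 : algebraMap A D π ∈ 𝒟 0 := SetLike.algebraMap_mem_graded 𝒟 π
  set I : Ideal D := Ideal.span {algebraMap A D π, l0, l1} with hI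
  have hIh : I.IsHomogeneous 𝒟 := by
    refine Ideal.homogeneous_span 𝒟 _ ?_
    rintro x hx
    rcases hx with rfl | rfl | rfl
    · exact ⟨0, h0⟩
    · exact ⟨Δ, hl0⟩
    · exact ⟨Δ, hl1⟩
  have hrad : Ideal.span (𝒟 1 : Set D) ≤ I.radical := by
    rw [hIh.radical_eq, Ideal.span_le]
    intro x hx
    refine Submodule.mem_sInf.2 ?_
    rintro J ⟨hJ1, hJ2, hJ3⟩
    by_contra hxJ
    have hRel : Rel 𝒟 J := ⟨hJ3, hJ1, fun hsub => hxJ (hsub hx)⟩
    exact hno J hRel (hJ2 (Ideal.subset_span (by simp))) (hJ2 (Ideal.subset_span (by simp)))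
      (hJ2 (Ideal.subset_span (by simp)))
  obtain ⟨n0, hn0⟩ := Ideal.exists_pow_le_of_le_radical_of_fg hrad (span_fg 𝒟 hfg)
  refine ⟨n0, fun d hd => ?_⟩
  -- the submodule `l0 𝒟 d + l1 𝒟 d`
  set N : Submodule A D := (𝒟 d).map (LinearMap.mulLeft A l0) ⊔
    (𝒟 d).map (LinearMap.mulLeft A l1) with hN
  have hle : 𝒟 (d + Δ) ≤ N ⊔ IsLocalRing.maximalIdeal A • 𝒟 (d + Δ) := by
    intro z hz
    have hzI : z ∈ I := by
      have h1 := pow_le_ideal 𝒟 (d + Δ) (mem_pow_of_mem 𝒟 hadj hz)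
      exact hn0 (Ideal.pow_le_pow_right (by omega) h1)
    rw [hI, Ideal.mem_span_insert] at hzI
    obtain ⟨a, w, hw, hzw⟩ := hzI
    rw [Ideal.mem_span_pair] at hw
    obtain ⟨b, c, hbc⟩ := hw
    have h2 : z = (DirectSum.decompose 𝒟 (algebraMap A D π * a) (d + Δ) : D) +
        ((DirectSum.decompose 𝒟 (l0 * b) (Δ + d) : D) +
          (DirectSum.decompose 𝒟 (l1 * c) (Δ + d) : D)) := by
      have h3 : z = algebraMap A D π * a + (l0 * b + l1 * c) := by
        rw [hzw, ← hbc]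
        ring
      conv_lhs => rw [← DirectSum.decompose_of_mem_same 𝒟 hz, h3]
      rw [DirectSum.decompose_add, DirectSum.decompose_add, add_comm Δ d]
      rfl
    rw [DirectSum.coe_decompose_mul_of_left_mem_zero 𝒟 h0,
      DirectSum.coe_decompose_mul_add_of_left_mem 𝒟 hl0,
      DirectSum.coe_decompose_mul_add_of_left_mem 𝒟 hl1] at h2
    have h5 : l0 * (DirectSum.decompose 𝒟 b d : D) + l1 * (DirectSum.decompose 𝒟 c d : D) ∈ N :=
      Submodule.add_mem_sup
        (Submodule.mem_map.2 ⟨_, (DirectSum.decompose 𝒟 b d).2, rfl⟩)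
        (Submodule.mem_map.2 ⟨_, (DirectSum.decompose 𝒟 c d).2, rfl⟩)
    have h6 : algebraMap A D π * (DirectSum.decompose 𝒟 a (d + Δ) : D) ∈
        IsLocalRing.maximalIdeal A • 𝒟 (d + Δ) := by
      rw [← Algebra.smul_def]
      exact Submodule.smul_mem_smul hπ (DirectSum.decompose 𝒟 a (d + Δ)).2
    rw [h2]
    exact add_mem ((le_sup_right : _ ≤ N ⊔ _) h6) ((le_sup_left : N ≤ N ⊔ _) h5)
  have hfin := Submodule.le_of_le_smul_of_le_jacobson_bot (graded_fg 𝒟 hadj hfg (d + Δ))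
    (IsLocalRing.maximalIdeal_le_jacobson ⊥) hle
  intro z hz
  obtain ⟨x, hx, y, hy, hxy⟩ := Submodule.mem_sup.1 (hfin hz)
  obtain ⟨z0, hz0, rfl⟩ := Submodule.mem_map.1 hx
  obtain ⟨z1, hz1, rfl⟩ := Submodule.mem_map.1 hy
  exact ⟨z0, hz0, z1, hz1, hxy.symm⟩

end Pool.Agent.H34.KP
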